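import Pool.Agent.Lib.MP_92f966_pr.NoPerc
import Pool.Agent.Lib.MP_92f966_pr.Iso2
import Pool.Agent.Lib.MP_92f966_pr.Faces

/-!
# Bounded degree plane triangulations with (I) and site percolation threshold close to one
-/

set_option autoImplicit false

namespace Pool.Agent.Results.MP_92f966_pr.Disproof

open MeasureTheory ProbabilityTheory Pool.Agent.Lib.MP_92f966_pr

/-- With all sites open there is an infinite cluster in an infinite connected graph. -/
lemma cluster_all_open {V : Type} [Infinite V] (G : SimpleGraph V) (hG : G.Connected) :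
    HasInfiniteCluster G (fun _ => true) := by
  obtain ⟨v₀⟩ := hG.nonempty
  let f : G →g G.induce {v | (fun _ : V => true) v = true} :=
    { toFun := fun v => ⟨v, rfl⟩
      map_rel' := fun h => h }
  refine ⟨(G.induce {v | (fun _ : V => true) v = true}).connectedComponentMk ⟨v₀, rfl⟩, ?_⟩
  have hsub : Set.range (fun v : V => (⟨v, rfl⟩ : {v | (fun _ : V => true) v = true})) ⊆
      ((G.induce {v | (fun _ : V => true) v = true}).connectedComponentMk ⟨v₀, rfl⟩).supp := by
    rintro _ ⟨v, rfl⟩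
    rw [SimpleGraph.ConnectedComponent.mem_supp_iff, SimpleGraph.ConnectedComponent.eq]
    exact (hG.preconnected v v₀).map f
  refine Set.Infinite.mono hsub (Set.infinite_range_of_injective ?_)
  intro v w h
  exact congrArg Subtype.val h

lemma pos_at_one {V : Type} [Infinite V] (G : SimpleGraph V) (hG : G.Connected)
    (h1 : (1 : ℝ) ∈ Set.Icc (0 : ℝ) 1) :
    0 < siteMeasure V ⟨1, h1⟩ {ω | HasInfiniteCluster G ω} := by
  have hm : siteMeasure V ⟨1, h1⟩ = Measure.dirac (fun _ => true) := by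
    unfold siteMeasure
    have : (⟨1, h1⟩ : unitInterval) = 1 := rfl
    rw [this]
    simp only [bernoulliMeasure_one]
    exact Measure.infinitePi_dirac _
  rw [hm, Measure.dirac_apply_of_mem]
  · exact one_pos
  · exact cluster_all_open G hG

/-- **Disproof.** For every `p₀ < 1` there is a bounded degree plane triangulation satisfying the
isoperimetric assumption (I) whose critical probability for site percolation is at least `p₀`. -/
theorem result : ∀ p₀ : ℝ, p₀ < 1 → ∃ (V : Type) (G : SimpleGraph V) (φ : V → ℝ × ℝ),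
    IsPlaneTriangulation G φ ∧
    (∃ Δ : ℕ, ∀ v : V, (G.neighborSet v).encard ≤ Δ) ∧
    IsoperimetricAssumption G ∧
    p₀ ≤ siteCritical G := by
  intro p₀ hp₀
  set p₁ := max p₀ 0 with hp₁
  have hp₁1 : p₁ < 1 := max_lt hp₀ one_pos
  have hp₁0 : 0 ≤ p₁ := le_max_right _ _
  set q₁ := 1 - p₁ with hq₁
  have hq₁0 : 0 < q₁ := by linarith
  have hq₁1 : q₁ ≤ 1 := by linarith
  set a := (q₁ ^ 2 / 2) ^ 3 with ha
  have ha0 : 0 < a := by positivity
  have ha1 : a ≤ 1 := by
    have h1 : q₁ ^ 2 ≤ 1 := pow_le_one₀ hq₁0.le hq₁1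
    exact pow_le_one₀ (by positivity) (by linarith)
  obtain ⟨n, hn⟩ := exists_pow_lt_of_lt_one (show (0 : ℝ) < 1 / 2 by norm_num)
    (show 1 - a < 1 by linarith)
  set b := max n 2 with hb
  have hb2 : 2 ≤ b := le_max_right _ _
  have hbn : (1 - a) ^ b ≤ 1 / 2 :=
    (pow_le_pow_of_le_one (by linarith) (by linarith) (le_max_left _ _)).trans hn.le
  refine ⟨ℤ × ℤ, G b, φ b, isPlaneTriangulation b, ⟨4 * b + 6, encard_neighborSet b⟩,
    iso_assumption hb2, ?_⟩
  refine (le_max_left p₀ 0).trans ?_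
  rw [← hp₁]
  refine le_csInf ?_ ?_
  · have h1 : (1 : ℝ) ∈ Set.Icc (0 : ℝ) 1 := by simp
    exact ⟨1, h1, pos_at_one (G b) (G_connected b) h1⟩
  · rintro p ⟨hp, hpos⟩
    by_contra hcon
    push Not at hcon
    have hq : q₁ ≤ 1 - p := by linarith
    have h2 : (1 - ((1 - p) ^ 2 / 2) ^ 3) ^ b ≤ 1 / 2 := by
      refine le_trans (pow_le_pow_left₀ ?_ ?_ b) hbn
      · have h3 : (1 - p) ^ 2 ≤ 1 := pow_le_one₀ (by linarith) (by linarith [hp.1])
        have h4 : ((1 - p) ^ 2 / 2) ^ 3 ≤ 1 := pow_le_one₀ (by positivity) (by linarith)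
        linarith
      · have h3 : q₁ ^ 2 ≤ (1 - p) ^ 2 := pow_le_pow_left₀ hq₁0.le hq 2
        have h4 : a ≤ ((1 - p) ^ 2 / 2) ^ 3 :=
          pow_le_pow_left₀ (by positivity) (by linarith) 3
        linarith
    have h5 := no_infinite_cluster (b := b) (by omega) ⟨p, hp⟩ (1 - p) rfl (by linarith) h2
    rw [h5] at hpos
    exact absurd hpos (lt_irrefl _)

end Pool.Agent.Results.MP_92f966_pr.Disproof
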